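import Pool.Agent.Helper39.DLin

/-!
# Products with all compact spaces detect the Lindelöf property
-/

universe u

namespace Pool.Agent.Results.MP_0abb29_gt.AllCompactIff

/-- A space is discretely Lindelöf if the closure of every discrete subset is a Lindelöf
subspace. -/
def DiscretelyLindelof (X : Type u) [TopologicalSpace X] : Prop :=
  ∀ D : Set X, DiscreteTopology D → IsLindelof (closure D)

/-- For every topological space `X` (no separation axiom is assumed): the product of `X` with
every compact Hausdorff space is discretely Lindelöf if and only if `X` is Lindelöf. -/
theorem result (X : Type u) [TopologicalSpace X] :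
    (∀ (K : Type u) [TopologicalSpace K] [CompactSpace K] [T2Space K],
      DiscretelyLindelof (X × K)) ↔ LindelofSpace X :=
  Pool.Agent.Helper39.DLin.forall_compact_iff X

end Pool.Agent.Results.MP_0abb29_gt.AllCompactIff
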