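import Pool.Agent.Helper39.DLin

/-!
# A discretely Lindelöf space whose product with a compact space is not discretely Lindelöf
-/

namespace Pool.Agent.Results.MP_0abb29_gt.ProductCounterexample

/-- A space is discretely Lindelöf if the closure of every discrete subset is a Lindelöf
subspace. -/
def DiscretelyLindelof (X : Type) [TopologicalSpace X] : Prop :=
  ∀ D : Set X, DiscreteTopology D → IsLindelof (closure D)

/-- There are a `T_1` discretely Lindelöf space `X` and a compact Hausdorff space `K` such that
`X × K` is not discretely Lindelöf. -/
theorem result : ∃ (X K : Type) (_ : TopologicalSpace X) (_ : TopologicalSpace K),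
    T1Space X ∧ DiscretelyLindelof X ∧ CompactSpace K ∧ T2Space K ∧
      ¬ DiscretelyLindelof (X × K) :=
  Pool.Agent.Helper39.DLin.counterexample

end Pool.Agent.Results.MP_0abb29_gt.ProductCounterexample
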